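import Mathlib
import Pool.Agent.H30.DS

set_option autoImplicit false

namespace Pool.Agent.Results.MP_1644e0_gt.Beth

open Pool.Agent.H30

/-- D-separable spaces. -/
def DSep (X : Type) [TopologicalSpace X] : Prop :=
  ∀ D : ℕ → Set X, (∀ n, Dense (D n)) →
    ∃ F : ℕ → Set X, (∀ n, F n ⊆ D n ∧ DiscreteTopology (F n)) ∧ Dense (⋃ n, F n)

/-- Spaces with a sigma-disjoint pi-base. -/
def SigmaDisjPi (X : Type) [TopologicalSpace X] : Prop :=
  ∃ B : ℕ → Set (Set X), (∀ n, (B n).PairwiseDisjoint id) ∧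
    (∀ n, ∀ U ∈ B n, IsOpen U ∧ U.Nonempty) ∧
    ∀ V : Set X, IsOpen V → V.Nonempty → ∃ n, ∃ U ∈ B n, U ⊆ V

theorem result : ∃ (X : Type) (_ : TopologicalSpace X), CompactSpace X ∧ T2Space X ∧
    DSep X ∧ ¬ SigmaDisjPi X :=
  ⟨DS.K → Bool, inferInstance, inferInstance, inferInstance, DS.dsep,
    fun ⟨B, h1, h2, h3⟩ => DS.nopi B h1 h2 h3⟩

end Pool.Agent.Results.MP_1644e0_gt.Beth
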